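import Mathlib
import Pool.Agent.V11234.UecRec

/-!
# MP_c472bb_lc, Q1: recognising unique equality continuation instances is undecidable
-/

set_option autoImplicit false

namespace Pool.Agent.Results.MP_c472bb_lc.RecogniseUEC

open Turing Relation Pool.Agent.Helper247 Pool.Agent.Helper247.Queue Pool.Agent.V11234

/-- The value on the word `u` of the morphism which maps the letter `i` to the `i`-th word of `L`. -/
def app (L : List (List ℕ)) (u : List ℕ) : List ℕ := u.flatMap (fun i => L.getD i [])

/-- Two words are comparable if one of them is a prefix of the other. -/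
def Comparable (x y : List ℕ) : Prop := x <+: y ∨ y <+: x

/-- A word over the alphabet `0, …, n - 1`. -/
def IsWord (n : ℕ) (u : List ℕ) : Prop := ∀ i ∈ u, i < n

/-- `(H, G)` is a pair of morphisms from the same free monoid, given by the lists of the images of
the letters `0, …, n - 1`. -/
def IsInstance (I : List (List ℕ) × List (List ℕ)) : Prop := I.1.length = I.2.length

/-- Unique equality continuation: if `u` has two different continuations by one letter to
comparable words, then the two morphisms agree on `u`. -/
def UEC (I : List (List ℕ) × List (List ℕ)) : Prop :=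
  ∀ u : List ℕ, IsWord I.1.length u → ∀ a b : ℕ, a < I.1.length → b < I.1.length → a ≠ b →
    Comparable (app I.1 (u ++ [a])) (app I.2 (u ++ [a])) →
    Comparable (app I.1 (u ++ [b])) (app I.2 (u ++ [b])) →
    app I.1 u = app I.2 u

/-- The halting problem reduces to the failure of unique equality continuation. -/
theorem family : ∃ (F : ℕ → List (List ℕ) × List (List ℕ)), Computable F ∧
    (∀ n, IsInstance (F n)) ∧ (∀ n, UEC (F n) ↔ ¬ (Univ.u n).Dom) := by
  classical
  obtain ⟨Λ, i1, i2, M, hM⟩ := Univ.exists_machine
  let S := Queue.Sym (TM2to1.Γ' PartrecToTM2.K' (fun _ => PartrecToTM2.Γ')) Λ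
  have fK : Finite PartrecToTM2.K' := by
    refine Finite.of_injective (fun k : PartrecToTM2.K' => match k with
      | .main => (0 : Fin 4)
      | .rev => 1
      | .aux => 2
      | .stack => 3) ?_
    intro a b h
    cases a <;> cases b <;> simp_all
  have fG : Finite (TM2to1.Γ' PartrecToTM2.K' (fun _ => PartrecToTM2.Γ')) :=
    inferInstanceAs (Finite (Bool × (PartrecToTM2.K' → Option PartrecToTM2.Γ')))
  have fS : Finite S := inferInstanceAs (Finite (Queue.Sym _ _))
  let _ : Fintype S := Fintype.ofFinite S
  let e := Fintype.equivFin (S × Bool)
  let c : S × Bool → ℕ := fun z => (e z : ℕ) + 2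
  have hc : Function.Injective c := by
    intro a b hab
    have : (e a : ℕ) = (e b : ℕ) := by simpa [c] using hab
    exact e.injective (Fin.ext this)
  have hc2 : ∀ x, 2 ≤ c x := fun x => by simp [c]
  let P : S → S → List S := Queue.prod M
  have hP1 : ∀ x y, 2 ≤ (P x y).length ∨ P x y = [Queue.Sym.kill] := prod_length M
  let tape : ℕ → List (TM2to1.Γ' PartrecToTM2.K' (fun _ => PartrecToTM2.Γ')) := fun n =>
    Univ.sym true .cons :: (PartrecToTM2.trNat n).reverse.map (Univ.sym false)
  let w0 : ℕ → List (S × Bool) := fun n => (initWord (tape n)).map (fun z => (z, false))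
  have hw0 : ∀ n, 2 ≤ (w0 n).length := fun n => by
    simp only [w0, List.length_map]
    exact initWord_length _
  have hhalt : ∀ n, (Univ.u n).Dom ↔
      ∃ b, QReach (UecPcp.Phat P) (w0 n) [(Queue.Sym.kill, b)] := by
    intro n
    rw [← hM n]
    have hrep : Rep (TM0.init (tape n) : TM0.Cfg _ Λ) (initWord (tape n)) :=
      rep_init (tape n) (by simp [tape])
    rw [← rep_halts M hrep, UecPcp.reach_iff P Queue.Sym.kill (initWord (tape n))]
  refine ⟨fun n => (UecRec.H2 P c ((w0 n).map c), UecRec.G2 Queue.Sym.kill c), ?_, ?_, ?_⟩
  · -- computability
    have hw : Computable (fun n => (w0 n).map c) := by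
      have hd := Univ.digits_computable (fun a => c (Queue.Sym.cell (Univ.sym false a), false))
      have : (fun n => (w0 n).map c) = fun n =>
          (if (((PartrecToTM2.trNat n).map
              (fun a => c (Queue.Sym.cell (Univ.sym false a), false))).length + 1) % 2 = 0 then
            [c (Queue.Sym.mark, false), c (Queue.Sym.head default (Univ.sym true .cons), false)]
          else [c (Queue.Sym.mark, false), c (Queue.Sym.cell default, false),
            c (Queue.Sym.head default (Univ.sym true .cons), false)]) ++
          ((PartrecToTM2.trNat n).map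
            (fun a => c (Queue.Sym.cell (Univ.sym false a), false))).reverse := by
        funext n
        simp only [w0, tape, initWord, List.length_cons, List.length_map, List.length_reverse]
        split_ifs <;> simp [Function.comp_def]
      rw [this]
      have hlen := Computable.list_length.comp hd
      have hmod : Computable (fun n : ℕ => ((((PartrecToTM2.trNat n).map
              (fun a => c (Queue.Sym.cell (Univ.sym false a), false))).length + 1) % 2)) :=
        (Primrec.nat_mod.comp (Primrec.succ.comp Primrec.id) (Primrec.const 2)).to_comp.comp hlen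
      have hite : Computable (fun n : ℕ => (if (((PartrecToTM2.trNat n).map
              (fun a => c (Queue.Sym.cell (Univ.sym false a), false))).length + 1) % 2 = 0 then
            [c (Queue.Sym.mark, false), c (Queue.Sym.head default (Univ.sym true .cons), false)]
          else [c (Queue.Sym.mark, false), c (Queue.Sym.cell default, false),
            c (Queue.Sym.head default (Univ.sym true .cons), false)])) := by
        have hp : Primrec (fun m : ℕ => if m = 0 then
            [c (Queue.Sym.mark, false), c (Queue.Sym.head default (Univ.sym true .cons), false)]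
          else [c (Queue.Sym.mark, false), c (Queue.Sym.cell default, false),
            c (Queue.Sym.head default (Univ.sym true .cons), false)]) :=
          Primrec.ite (PrimrecRel.comp Primrec.eq Primrec.id (Primrec.const 0))
            (Primrec.const _) (Primrec.const _)
        exact hp.to_comp.comp hmod
      exact Computable.list_append.comp hite (Computable.list_reverse.comp hd)
    refine Computable.pair ?_ (Computable.const _)
    have h1 : Computable (fun n => (0 :: (w0 n).map c) :: UecPcp.Htail P c) :=
      Computable.list_cons.comp (Computable.list_cons.comp (Computable.const 0) hw)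
        (Computable.const _)
    exact Computable.list_cons.comp (Computable.const [1, 1])
      (Computable.list_cons.comp (Computable.const [1, 1]) h1)
  · intro n
    exact UecRec.length_eq2 P Queue.Sym.kill c _
  · intro n
    rw [hhalt n]
    constructor
    · rintro h ⟨b, hb⟩
      obtain ⟨u, hu, i, j, hi, hj, hij, h1, h2, h3⟩ :=
        UecRec.not_uec2 P Queue.Sym.kill c (w0 n) hb
      exact h3 (h u hu i j hi hj hij h1 h2)
    · intro hno u hu a b ha hb hab h1 h2
      exact UecRec.uec2 P Queue.Sym.kill c hc hc2 hP1 (w0 n) (hw0 n)
        (fun b hb => hno ⟨b, hb⟩) u hu a b ha hb hab h1 h2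

/-- No algorithm decides, given an instance of the Post Correspondence Problem, whether it is a
unique equality continuation instance; the set of these instances is not even recursively
enumerable. -/
theorem result :
    (¬ ∃ P : List (List ℕ) × List (List ℕ) → Prop, ComputablePred P ∧
      ∀ I, IsInstance I → (P I ↔ UEC I)) ∧
    (¬ ∃ P : List (List ℕ) × List (List ℕ) → Prop, REPred P ∧
      ∀ I, IsInstance I → (P I ↔ UEC I)) := by
  obtain ⟨F, hF, hI, hU⟩ := family
  have hre : ¬ REPred (fun n => ¬ (Univ.u n).Dom) := by
    intro h
    apply Univ.u_not_computable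
    rw [ComputablePred.computable_iff_re_compl_re']
    exact ⟨Univ.u_partrec.dom_re, h⟩
  have key : ¬ ∃ P : List (List ℕ) × List (List ℕ) → Prop, REPred P ∧
      ∀ I, IsInstance I → (P I ↔ UEC I) := by
    rintro ⟨P, hP, hspec⟩
    apply hre
    have h1 : REPred (fun n => P (F n)) := by
      have := Partrec.comp hP hF
      exact this
    refine h1.of_eq fun n => ?_
    rw [hspec (F n) (hI n), hU n]
  exact ⟨fun ⟨P, hP, hspec⟩ => key ⟨P, hP.to_re, hspec⟩, key⟩

end Pool.Agent.Results.MP_c472bb_lc.RecogniseUEC
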